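import Pool.Agent.VRing23.Regular

/-!
# Room for one more element: proper right ideals and maximal avoiding ideals

Tools for the theorem on prime right V-rings of countable sequential rank (MP_2175e6_al, helper6).
-/

open MulOpposite Pool.Agent.VRing Cardinal

namespace Pool.Agent.VRing6.Room

open Pool.Agent.VRing23

universe u

variable {T : Type u} [Ring T]

/-- The right ideal generated by `Y` is proper. -/
def Proper (Y : Set T) : Prop := Submodule.span Tᵐᵒᵖ Y ≠ ⊤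

/-- For every `g ∈ G` some `f ∈ Y` lies in `1 + (g)`. -/
def Treats (Y G : Set T) : Prop := ∀ g ∈ G, ∃ f ∈ Y, 1 - f ∈ TwoSidedIdeal.span {g}

/-- `A` is maximal among the ideals avoiding `E`. -/
def MaxAv (E : Set T) (A : TwoSidedIdeal T) : Prop :=
  (∀ e ∈ E, e ∉ A) ∧ ∀ B : TwoSidedIdeal T, A < B → ∃ e ∈ E, e ∈ B

/-- The set of maximal `E`-avoiding ideals is not covered by fewer than `θ` nonzero elements. -/
def Large (θ : Cardinal.{u}) (E : Set T) : Prop :=
  ∀ Z : Set T, #Z < θ → (∀ z ∈ Z, z ≠ 0) → ∃ A, MaxAv E A ∧ ∀ z ∈ Z, z ∉ A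

/-- The right ideal generated by `Y` and `A` is proper. -/
def PA (Y : Set T) (A : TwoSidedIdeal T) : Prop := Proper (Y ∪ {x | x ∈ A})

/-- `A` is maximal among the ideals `A` such that `Y T + A` is proper. -/
def MaxPr (Y : Set T) (A : TwoSidedIdeal T) : Prop :=
  PA Y A ∧ ∀ B : TwoSidedIdeal T, A < B → ¬ PA Y B

/-- The set of these ideals is not covered by fewer than `θ` nonzero elements. -/
def LargePr (θ : Cardinal.{u}) (Y : Set T) : Prop :=
  ∀ Z : Set T, #Z < θ → (∀ z ∈ Z, z ≠ 0) → ∃ A, MaxPr Y A ∧ ∀ z ∈ Z, z ∉ A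

lemma proper_iff {Y : Set T} : Proper Y ↔ (1 : T) ∉ Submodule.span Tᵐᵒᵖ Y := by
  constructor
  · intro h h1
    apply h
    rw [eq_top_iff]
    intro t _
    have h3 := Submodule.smul_mem _ (op t) h1
    simpa using h3
  · intro h h1
    apply h
    rw [h1]
    trivial

lemma Proper.mono {Y Y' : Set T} (h : Y ⊆ Y') (h' : Proper Y') : Proper Y := by
  rw [proper_iff] at h' ⊢
  exact fun h1 => h' (Submodule.span_mono h h1)

/-- a proper set lies in a maximal right ideal -/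
lemma Proper.exists_coatom {Y : Set T} (h : Proper Y) :
    ∃ M : Submodule Tᵐᵒᵖ T, IsCoatom M ∧ Y ⊆ M := by
  have hfin : Module.Finite Tᵐᵒᵖ T := finite_right
  obtain ⟨M, hM, hNM⟩ := (eq_top_or_exists_le_coatom _).resolve_left h
  exact ⟨M, hM, fun y hy => hNM (Submodule.subset_span hy)⟩

lemma proper_of_coatom {M : Submodule Tᵐᵒᵖ T} (hM : IsCoatom M) {Y : Set T} (h : Y ⊆ M) :
    Proper Y := by
  intro htop
  apply hM.1
  rw [eq_top_iff, ← htop]
  exact Submodule.span_le.mpr h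

lemma proper_iUnion {Y : ℕ → Set T} (hmono : Monotone Y) (h : ∀ n, Proper (Y n)) :
    Proper (⋃ n, Y n) := by
  rw [proper_iff]
  intro h1
  obtain ⟨s, hs, h1s⟩ := Submodule.mem_span_finite_of_mem_span h1
  obtain ⟨n, hn⟩ : ∃ n, (s : Set T) ⊆ Y n := by
    classical
    clear h1s
    induction s using Finset.induction_on with
    | empty => exact ⟨0, by simp⟩
    | insert a s _ ih =>
      rw [Finset.coe_insert, Set.insert_subset_iff] at hs
      obtain ⟨n, hn⟩ := ih hs.2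
      obtain ⟨m, hm⟩ := Set.mem_iUnion.mp hs.1
      refine ⟨max n m, ?_⟩
      rw [Finset.coe_insert, Set.insert_subset_iff]
      exact ⟨hmono (le_max_right n m) hm, hn.trans (hmono (le_max_left n m))⟩
  exact (proper_iff.mp (h n)) (Submodule.span_mono hn h1s)

lemma Treats.mono {Y Y' G : Set T} (h : Y ⊆ Y') (h' : Treats Y G) : Treats Y' G := by
  intro g hg
  obtain ⟨f, hf, h1⟩ := h' g hg
  exact ⟨f, h hf, h1⟩

/-- Every proper finitely generated right ideal `N` has a witness: a nonzero element lying in all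
ideals `A` with `N + A = T`. -/
def HasWit (T : Type u) [Ring T] : Prop :=
  ∀ s : Finset T, (1 : T) ∉ Submodule.span Tᵐᵒᵖ (s : Set T) →
    ∃ e : T, e ≠ 0 ∧ ∀ A : TwoSidedIdeal T,
      (1 : T) ∈ Submodule.span Tᵐᵒᵖ ((s : Set T) ∪ {x | x ∈ A}) → e ∈ A

lemma mem_span_union {Y : Set T} {A : TwoSidedIdeal T} {z : T}
    (h : z ∈ Submodule.span Tᵐᵒᵖ (Y ∪ {x | x ∈ A})) :
    ∃ y ∈ Submodule.span Tᵐᵒᵖ Y, ∃ a ∈ A, z = y + a := by
  induction h using Submodule.span_induction with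
  | mem x hx =>
    rcases hx with hx | hx
    · exact ⟨x, Submodule.subset_span hx, 0, A.zero_mem, (add_zero x).symm⟩
    · exact ⟨0, Submodule.zero_mem _, x, hx, (zero_add x).symm⟩
  | zero => exact ⟨0, Submodule.zero_mem _, 0, A.zero_mem, (add_zero 0).symm⟩
  | add x y _ _ hx hy =>
    obtain ⟨a, ha, b, hb, rfl⟩ := hx
    obtain ⟨c, hc, d, hd, rfl⟩ := hy
    exact ⟨a + c, Submodule.add_mem _ ha hc, b + d, A.add_mem hb hd, by abel⟩
  | smul c x _ hx =>
    obtain ⟨a, ha, b, hb, rfl⟩ := hx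
    refine ⟨c • a, Submodule.smul_mem _ _ ha, b * c.unop, A.mul_mem_right _ _ hb, ?_⟩
    rw [smul_add]
    rfl

lemma VNR.hasWit (h : VNR T) : HasWit T := by
  intro s hs
  obtain ⟨e, he, he1⟩ := h.exists_ann s
  refine ⟨e, ?_, fun A hA => ?_⟩
  · rintro rfl
    rw [sub_zero] at he1
    exact hs he1
  · obtain ⟨y, hy, a, ha, h1⟩ := mem_span_union hA
    have hey : e * y = 0 := by
      clear h1
      induction hy using Submodule.span_induction with
      | mem y hy => exact he y hy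
      | zero => rw [mul_zero]
      | add a b _ _ ha hb => rw [mul_add, ha, hb, add_zero]
      | smul c y _ hy =>
        change e * (y * c.unop) = 0
        rw [← mul_assoc, hy, zero_mul]
    have h2 : e = e * a := by
      calc e = e * (y + a) := by rw [← h1, mul_one]
        _ = e * a := by rw [mul_add, hey, zero_add]
    rw [h2]
    exact A.mul_mem_left _ _ ha

/-! ### Witnesses -/

section Wit

variable (hwit : HasWit T)

open Classical in
/-- a chosen witness of the finite set `s` -/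
noncomputable def wit (s : Finset T) : T :=
  if h : (1 : T) ∉ Submodule.span Tᵐᵒᵖ (s : Set T) then (hwit s h).choose else 0

lemma wit_ne_zero {s : Finset T} (h : (1 : T) ∉ Submodule.span Tᵐᵒᵖ (s : Set T)) :
    wit hwit s ≠ 0 := by
  rw [wit, dif_pos h]
  exact (hwit s h).choose_spec.1

lemma wit_mem {s : Finset T} {A : TwoSidedIdeal T}
    (hA : (1 : T) ∈ Submodule.span Tᵐᵒᵖ ((s : Set T) ∪ {x | x ∈ A})) : wit hwit s ∈ A := by
  by_cases h : (1 : T) ∉ Submodule.span Tᵐᵒᵖ (s : Set T)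
  · rw [wit, dif_pos h]
    exact (hwit s h).choose_spec.2 A hA
  · rw [wit, dif_neg h]
    exact A.zero_mem

/-- the set of witnesses of `Y` -/
def Wit (Y : Set T) : Set T := {x | ∃ s : Finset T, (s : Set T) ⊆ Y ∧ x = wit hwit s}

lemma Wit.mono {Y Y' : Set T} (h : Y ⊆ Y') : Wit hwit Y ⊆ Wit hwit Y' := by
  rintro x ⟨s, hs, rfl⟩
  exact ⟨s, hs.trans h, rfl⟩

lemma ne_zero_of_mem_wit {Y : Set T} (h : Proper Y) {x : T} (hx : x ∈ Wit hwit Y) : x ≠ 0 := by
  obtain ⟨s, hs, rfl⟩ := hx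
  exact wit_ne_zero hwit (proper_iff.mp (h.mono hs))

lemma mk_wit_le (Y : Set T) : #(Wit hwit Y) ≤ max ℵ₀ #Y := by
  classical
  have h1 : Wit hwit Y ⊆ Set.range (fun l : List Y =>
      wit hwit ((l.map Subtype.val).toFinset)) := by
    rintro x ⟨s, hs, rfl⟩
    refine ⟨(s.toList.attach.map fun w => ⟨w.1, hs (Finset.mem_toList.mp w.2)⟩), ?_⟩
    change wit hwit _ = wit hwit s
    congr 1
    ext w
    simp
  exact (mk_le_mk_of_subset h1).trans (mk_range_le.trans (mk_list_le_max _))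

/-- If `Y T + A` is not proper, then `A` contains a witness of `Y`. -/
lemma exists_wit_mem {Y : Set T} {A : TwoSidedIdeal T} (h : ¬ PA Y A) :
    ∃ e ∈ Wit hwit Y, e ∈ A := by
  classical
  rw [PA, proper_iff, not_not] at h
  obtain ⟨s, hs, h1s⟩ := Submodule.mem_span_finite_of_mem_span h
  refine ⟨wit hwit (s.filter (fun x => x ∈ Y)), ⟨_, ?_, rfl⟩, wit_mem hwit ?_⟩
  · intro x hx
    rw [Finset.mem_coe, Finset.mem_filter] at hx
    exact hx.2
  · refine Submodule.span_mono ?_ h1s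
    intro x hx
    by_cases hxY : x ∈ Y
    · left
      rw [Finset.mem_coe, Finset.mem_filter]
      exact ⟨hx, hxY⟩
    · right
      exact (hs hx).resolve_left hxY

end Wit

lemma PA.proper {Y : Set T} {A : TwoSidedIdeal T} (h : PA Y A) : Proper Y :=
  Proper.mono Set.subset_union_left h

/-- If `Y` treats an element of `B` then `Y T + B` is not proper. -/
lemma not_pA_of_treats {Y : Set T} {B : TwoSidedIdeal T} {f : T} (hf : f ∈ Y) (h : 1 - f ∈ B) :
    ¬ PA Y B := by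
  rw [PA, proper_iff, not_not]
  have h1 : (1 : T) = f + (1 - f) := by abel
  rw [h1]
  exact Submodule.add_mem _ (Submodule.subset_span (Or.inl hf)) (Submodule.subset_span (Or.inr h))

/-- the ideal `A + (x)` as a set of sums -/
lemma exists_ideal_add (A : TwoSidedIdeal T) (x : T) :
    ∃ B : TwoSidedIdeal T, A ≤ B ∧ x ∈ B ∧
      ∀ z ∈ B, ∃ a ∈ A, ∃ t ∈ TwoSidedIdeal.span {x}, z = a + t := by
  refine ⟨TwoSidedIdeal.mk' {z | ∃ a ∈ A, ∃ t ∈ TwoSidedIdeal.span {x}, z = a + t}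
    ⟨0, A.zero_mem, 0, TwoSidedIdeal.zero_mem _, by simp⟩ ?_ ?_ ?_ ?_, ?_, ?_, ?_⟩
  · rintro _ _ ⟨a, ha, t, ht, rfl⟩ ⟨b, hb, s, hs, rfl⟩
    exact ⟨a + b, A.add_mem ha hb, t + s, TwoSidedIdeal.add_mem _ ht hs, by abel⟩
  · rintro _ ⟨a, ha, t, ht, rfl⟩
    exact ⟨-a, A.neg_mem ha, -t, TwoSidedIdeal.neg_mem _ ht, by abel⟩
  · rintro r _ ⟨a, ha, t, ht, rfl⟩
    exact ⟨r * a, A.mul_mem_left _ _ ha, r * t, TwoSidedIdeal.mul_mem_left _ _ _ ht,
      mul_add _ _ _⟩
  · rintro _ r ⟨a, ha, t, ht, rfl⟩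
    exact ⟨a * r, A.mul_mem_right _ _ ha, t * r, TwoSidedIdeal.mul_mem_right _ _ _ ht,
      add_mul _ _ _⟩
  · intro a ha
    rw [TwoSidedIdeal.mem_mk']
    exact ⟨a, ha, 0, TwoSidedIdeal.zero_mem _, by simp⟩
  · rw [TwoSidedIdeal.mem_mk']
    exact ⟨0, A.zero_mem, x, TwoSidedIdeal.subset_span rfl, by simp⟩
  · intro z hz
    rw [TwoSidedIdeal.mem_mk'] at hz
    exact hz

lemma span_le_of_mem {x : T} {B : TwoSidedIdeal T} (h : x ∈ B) : TwoSidedIdeal.span {x} ≤ B := by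
  rw [TwoSidedIdeal.span_le]
  simpa using h

/-- The step. -/
lemma step {Y : Set T} {A : TwoSidedIdeal T} (hA : MaxPr Y A) {x : T} (hx : x ∉ A) :
    ∃ f, 1 - f ∈ TwoSidedIdeal.span {x} ∧ Proper (insert f Y) := by
  obtain ⟨B, hAB, hxB, hB⟩ := exists_ideal_add A x
  have hlt : A < B := lt_of_le_of_ne hAB fun h => hx (h ▸ hxB)
  have h1 := hA.2 B hlt
  rw [PA, proper_iff, not_not] at h1
  obtain ⟨y, hy, b, hb, hyb⟩ := mem_span_union h1
  obtain ⟨a, ha, t, ht, hat⟩ := hB b hb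
  refine ⟨y + a, ?_, ?_⟩
  · have h2 : 1 - (y + a) = t := by
      rw [hyb, hat]
      abel
    rw [h2]
    exact ht
  · have h3 : Submodule.span Tᵐᵒᵖ (insert (y + a) Y) ≤
        Submodule.span Tᵐᵒᵖ (Y ∪ {x | x ∈ A}) := by
      refine Submodule.span_le.mpr ?_
      rintro z (rfl | hz)
      · exact Submodule.add_mem _ (Submodule.span_mono Set.subset_union_left hy)
          (Submodule.subset_span (Or.inr ha))
      · exact Submodule.subset_span (Or.inl hz)
    rw [proper_iff]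
    intro h4
    exact (proper_iff.mp hA.1) (h3 h4)

/-- Maximal `E`-avoiding ideals avoiding the witnesses of a set treating `E`. -/
lemma MaxAv.of_treats (hwit : HasWit T) {E Y : Set T} (hY : Treats Y E) {A : TwoSidedIdeal T}
    (hA : MaxAv E A) (hAY : ∀ e ∈ Wit hwit Y, e ∉ A) : MaxPr Y A := by
  refine ⟨?_, fun B hB => ?_⟩
  · by_contra h
    obtain ⟨e, he, heA⟩ := exists_wit_mem hwit h
    exact hAY e he heA
  · obtain ⟨e, he, heB⟩ := hA.2 B hB
    obtain ⟨f, hf, h1⟩ := hY e he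
    exact not_pA_of_treats hf (span_le_of_mem heB h1)

/-- The same for a larger set. -/
lemma MaxPr.of_subset (hwit : HasWit T) {Y Y' : Set T} (h : Y ⊆ Y') {A : TwoSidedIdeal T}
    (hA : MaxPr Y A) (hAY : ∀ e ∈ Wit hwit Y', e ∉ A) : MaxPr Y' A := by
  refine ⟨?_, fun B hB hB' => hA.2 B hB ?_⟩
  · by_contra h
    obtain ⟨e, he, heA⟩ := exists_wit_mem hwit h
    exact hAY e he heA
  · exact Proper.mono (Set.union_subset_union_left _ h) hB'

lemma MaxPr.of_treats (hwit : HasWit T) {Y Y' : Set T} (h : Treats Y' (Wit hwit Y))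
    {A : TwoSidedIdeal T} (hA : MaxPr Y A) (hAY : ∀ e ∈ Wit hwit Y', e ∉ A) : MaxPr Y' A := by
  refine ⟨?_, fun B hB => ?_⟩
  · by_contra h
    obtain ⟨e, he, heA⟩ := exists_wit_mem hwit h
    exact hAY e he heA
  · obtain ⟨e, he, heB⟩ := exists_wit_mem hwit (hA.2 B hB)
    obtain ⟨f, hf, h1⟩ := h e he
    exact not_pA_of_treats hf (span_le_of_mem heB h1)

lemma mk_union_lt {θ : Cardinal.{u}} (hθ : ℵ₀ ≤ θ) {A B : Set T} (hA : #A < θ) (hB : #B < θ) :
    #(A ∪ B : Set T) < θ :=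
  (mk_union_le _ _).trans_lt (add_lt_of_lt hθ hA hB)

lemma mk_wit_lt (hwit : HasWit T) {θ : Cardinal.{u}} (hθ : ℵ₀ < θ) {Y : Set T} (h : #Y < θ) :
    #(Wit hwit Y) < θ :=
  (mk_wit_le hwit Y).trans_lt (max_lt hθ h)

/-- If `E` is large and `Y` treats `E` then `Y` has room. -/
lemma Large.of_treats (hwit : HasWit T) {θ : Cardinal.{u}} (hθ : ℵ₀ < θ) {E Y : Set T}
    (hE : Large θ E) (hY : Treats Y E) (hYp : Proper Y) (hYc : #Y < θ) : LargePr θ Y := by
  intro Z hZ hZ0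
  obtain ⟨A, hA, hAZ⟩ := hE (Z ∪ Wit hwit Y) (mk_union_lt hθ.le hZ (mk_wit_lt hwit hθ hYc)) (by
    rintro z (hz | hz)
    · exact hZ0 z hz
    · exact ne_zero_of_mem_wit hwit hYp hz)
  exact ⟨A, hA.of_treats hwit hY fun e he => hAZ e (Or.inr he), fun z hz => hAZ z (Or.inl hz)⟩

/-- If `Y` has room and `Y'` treats the witnesses of `Y` then `Y'` has room. -/
lemma LargePr.of_treats (hwit : HasWit T) {θ : Cardinal.{u}} (hθ : ℵ₀ < θ) {Y Y' : Set T}
    (hY : LargePr θ Y) (h : Treats Y' (Wit hwit Y)) (hYp : Proper Y') (hYc : #Y' < θ) :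
    LargePr θ Y' := by
  intro Z hZ hZ0
  obtain ⟨A, hA, hAZ⟩ := hY (Z ∪ Wit hwit Y') (mk_union_lt hθ.le hZ (mk_wit_lt hwit hθ hYc)) (by
    rintro z (hz | hz)
    · exact hZ0 z hz
    · exact ne_zero_of_mem_wit hwit hYp hz)
  exact ⟨A, hA.of_treats hwit h fun e he => hAZ e (Or.inr he), fun z hz => hAZ z (Or.inl hz)⟩

/-- ideals maximal with respect to avoiding `E` above a given one -/
lemma exists_maxAv_ge (E : Set T) (w : TwoSidedIdeal T) (hw : ∀ e ∈ E, e ∉ w) :
    ∃ A : TwoSidedIdeal T, w ≤ A ∧ MaxAv E A := by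
  obtain ⟨A, hwA, hA⟩ := zorn_le_nonempty₀ {A : TwoSidedIdeal T | ∀ g ∈ E, g ∉ A} (by
    intro c hc hchain y hy
    let U : TwoSidedIdeal T := TwoSidedIdeal.mk' {x | ∃ I ∈ c, x ∈ I}
      ⟨y, hy, y.zero_mem⟩
      (by
        rintro a b ⟨I, hI, haI⟩ ⟨J, hJ, hbJ⟩
        rcases hchain.total hI hJ with h | h
        · exact ⟨J, hJ, J.add_mem (h haI) hbJ⟩
        · exact ⟨I, hI, I.add_mem haI (h hbJ)⟩)
      (by
        rintro a ⟨I, hI, haI⟩
        exact ⟨I, hI, I.neg_mem haI⟩)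
      (by
        rintro a b ⟨I, hI, haI⟩
        exact ⟨I, hI, I.mul_mem_left _ _ haI⟩)
      (by
        rintro a b ⟨I, hI, haI⟩
        exact ⟨I, hI, I.mul_mem_right _ _ haI⟩)
    refine ⟨U, ?_, ?_⟩
    · intro g hg hgU
      obtain ⟨I, hI, hgI⟩ : ∃ I ∈ c, g ∈ I := by simpa [U] using hgU
      exact hc hI g hg hgI
    · intro I hI x hx
      have : ∃ I ∈ c, x ∈ I := ⟨I, hI, hx⟩
      change x ∈ U
      simpa [U] using this) w hw
  refine ⟨A, hwA, hA.prop, fun I hI => ?_⟩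
  by_contra hcon
  push Not at hcon
  exact absurd (hA.le_of_ge (y := I) hcon hI.le) (not_le_of_gt hI)

/-- A right primitive factor ring `T / A` gives a maximal right ideal with core `A`. -/
lemma exists_coatom_of_primitive (A : TwoSidedIdeal T)
    (h : RightPrimitive A.ringCon.Quotient) :
    ∃ M : Submodule Tᵐᵒᵖ T, IsCoatom M ∧ ∀ x, x ∉ A → ∃ f ∈ M, 1 - f ∈ TwoSidedIdeal.span {x} := by
  obtain ⟨S, _, _, hS, hfaith⟩ := h
  let π : T →+* A.ringCon.Quotient := A.ringCon.mk'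
  let _ : Module Tᵐᵒᵖ S := Module.compHom S π.op
  have hsop : Function.Surjective π.op := by
    intro s
    obtain ⟨r, hr⟩ := A.ringCon.mk'_surjective s.unop
    exact ⟨op r, by rw [← op_unop s, ← hr]; rfl⟩
  have _ : RingHomSurjective π.op := ⟨hsop⟩
  let l : S →ₛₗ[π.op] S :=
    { toFun := fun m => m
      map_add' := fun _ _ => rfl
      map_smul' := fun _ _ => rfl }
  have hS' : IsSimpleModule Tᵐᵒᵖ S :=
    (LinearMap.isSimpleModule_iff_of_bijective l Function.bijective_id).mpr hS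
  have _ : Nontrivial S := IsSimpleModule.nontrivial Tᵐᵒᵖ S
  obtain ⟨v, hv⟩ := exists_ne (0 : S)
  let φ : T →ₗ[Tᵐᵒᵖ] S :=
    { toFun := fun x => op x • v
      map_add' := fun x y => by rw [op_add, add_smul]
      map_smul' := fun c x => by
        change op (x * c.unop) • v = c • op x • v
        rw [op_mul, mul_smul, op_unop] }
  have hφ : Function.Surjective φ := by
    rw [← LinearMap.range_eq_top]
    refine (eq_bot_or_eq_top (LinearMap.range φ)).resolve_left fun h0 => hv ?_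
    have h1 : φ 1 ∈ LinearMap.range φ := ⟨1, rfl⟩
    rw [h0, Submodule.mem_bot] at h1
    simpa [φ] using h1
  have hM : IsCoatom (LinearMap.ker φ) := by
    rw [← isSimpleModule_iff_isCoatom]
    exact IsSimpleModule.congr (LinearMap.quotKerEquivOfSurjective φ hφ)
  refine ⟨LinearMap.ker φ, hM, fun x hx => ?_⟩
  obtain ⟨u, hu, huM⟩ : ∃ u ∈ TwoSidedIdeal.span {x}, u ∉ LinearMap.ker φ := by
    by_contra hcon
    push Not at hcon
    apply hx
    rw [← mk'_eq_zero]
    have h1 := hfaith (op (A.ringCon.mk' x)) (by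
      intro m
      obtain ⟨t, rfl⟩ := hφ m
      have h2 := hcon (t * x) (TwoSidedIdeal.mul_mem_left _ _ _ (TwoSidedIdeal.subset_span rfl))
      rw [LinearMap.mem_ker] at h2
      have h3 : φ (t * x) = op x • φ t := φ.map_smul (op x) t
      rw [h3] at h2
      exact h2)
    simpa using congrArg unop h1
  have h4 : LinearMap.ker φ ⊔ Submodule.span Tᵐᵒᵖ {u} = ⊤ := by
    apply hM.2
    refine lt_of_le_of_ne le_sup_left fun h => huM ?_
    rw [h]
    exact Submodule.mem_sup_right (Submodule.mem_span_singleton_self u)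
  have h5 : (1 : T) ∈ LinearMap.ker φ ⊔ Submodule.span Tᵐᵒᵖ {u} := by rw [h4]; trivial
  obtain ⟨f, hf, z, hz, hfz⟩ := Submodule.mem_sup.mp h5
  obtain ⟨c, rfl⟩ := Submodule.mem_span_singleton.mp hz
  refine ⟨f, hf, ?_⟩
  have h6 : 1 - f = u * c.unop := by
    rw [← hfz]
    change f + u * c.unop - f = _
    abel
  rw [h6]
  exact TwoSidedIdeal.mul_mem_right _ _ _ hu

end Pool.Agent.VRing6.Room
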