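import Pool.Agent.VRing6.Nu.Convert

/-!
# Room: names of `Nu.Convert` (for files that import the old path)
-/

open Cardinal Pool.Agent.VRing Pool.Agent.VRing23

namespace Pool.Agent.VRing6.Room

universe u

variable {T : Type u} [Ring T]

/-- A surjection with kernel `P` factors through a bijection from the factor ring. -/
theorem exists_hom_of_ker {P : TwoSidedIdeal T} {U : Type u} [Ring U] (f : T →+* U)
    (hf : Function.Surjective f) (hP : ∀ x, x ∈ P ↔ f x = 0) :
    ∃ g : P.ringCon.Quotient →+* U, Function.Surjective g ∧ Function.Injective g :=
  Nu.exists_hom_of_ker f hf hP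

/-- `GoodFactor` is invariant under isomorphism. -/
theorem goodFactor_of_bijective {A B : Type u} [Ring A] [Ring B] (g : A →+* B)
    (hgs : Function.Surjective g) (hgi : Function.Injective g) (hA : GoodFactor A) :
    GoodFactor B :=
  Nu.goodFactor_of_bijective g hgs hgi hA

end Pool.Agent.VRing6.Room
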