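import Pool.Agent.VRing6.Room.Basic

/-!
# The transfinite recursion (MP_2175e6_al, helper6)
-/

open MulOpposite Pool.Agent.VRing Cardinal

namespace Pool.Agent.VRing6.Room

open Pool.Agent.VRing23

universe u

variable {T : Type u} [Ring T]

/-- If `Y` has room, then `Y` extends to a proper set treating any given set of at most `θ`
nonzero elements. -/
theorem recursion (hwit : HasWit T) {θ : Cardinal.{u}} (hθ : ℵ₀ < θ) {Y : Set T}
    (hYp : Proper Y) (hYc : #Y < θ) (hL : LargePr θ Y) (G0 : Set T) (hG0 : #G0 ≤ θ)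
    (h0 : ∀ x ∈ G0, x ≠ 0) :
    ∃ Y', Y ⊆ Y' ∧ Proper Y' ∧ Treats Y' G0 ∧ #Y' ≤ #Y + #G0 := by
  classical
  obtain ⟨r, wo, hr⟩ := Cardinal.exists_ord_eq G0
  let F : G0 → T := IsWellFounded.fix r fun x ih =>
    if h : ∃ f, 1 - f ∈ TwoSidedIdeal.span {(x : T)} ∧
        Proper (insert f (Y ∪ {t | ∃ y hy, ih y hy = t})) then h.choose else 0
  have hF : ∀ x : G0, F x = if h : ∃ f, 1 - f ∈ TwoSidedIdeal.span {(x : T)} ∧
        Proper (insert f (Y ∪ {t | ∃ y, ∃ _ : r y x, F y = t})) then h.choose else 0 := by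
    intro x
    exact IsWellFounded.fix_eq r _ x
  have hset : ∀ x : G0, {t | ∃ y, ∃ _ : r y x, F y = t} = F '' {y | r y x} := by
    intro x
    ext t
    simp
  have hF' : ∀ x : G0, (∃ f, 1 - f ∈ TwoSidedIdeal.span {(x : T)} ∧
        Proper (insert f (Y ∪ F '' {y | r y x}))) →
        1 - F x ∈ TwoSidedIdeal.span {(x : T)} ∧
        Proper (insert (F x) (Y ∪ F '' {y | r y x})) := by
    intro x hx
    rw [← hset] at hx ⊢
    rw [hF x, dif_pos hx]
    exact hx.choose_spec
  -- finite subsets determine properness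
  have hfinite : ∀ D : Set G0, (∀ z ∈ D, Proper (insert (F z) (Y ∪ F '' {y | r y z}))) →
      Proper (Y ∪ F '' D) := by
    intro D hD
    rw [proper_iff]
    intro h1
    obtain ⟨s, hs, h1s⟩ := Submodule.mem_span_finite_of_mem_span h1
    -- the part of `s` outside `Y`
    obtain ⟨s', hs'D, hs's⟩ : ∃ s' : Finset G0, (s' : Set G0) ⊆ D ∧
        s'.image F = s.filter (fun t => t ∉ Y) := by
      apply Finset.subset_set_image_iff.mp
      intro t ht
      rw [Finset.mem_coe, Finset.mem_filter] at ht
      exact (hs ht.1).resolve_left ht.2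
    rcases s'.eq_empty_or_nonempty with hemp | hne
    · refine (proper_iff.mp hYp) (Submodule.span_mono ?_ h1s)
      intro t ht
      by_contra htY
      have h2 : t ∈ s'.image F := by
        rw [hs's, Finset.mem_filter]
        exact ⟨ht, htY⟩
      rw [hemp] at h2
      simp at h2
    · obtain ⟨z, hz, hzmax⟩ : ∃ z ∈ s', ∀ y ∈ s', r y z ∨ y = z := by
        let _ : LinearOrder G0 := linearOrderOfSTO r
        refine ⟨s'.max' hne, s'.max'_mem hne, fun y hy => ?_⟩
        have := s'.le_max' y hy
        rcases lt_or_eq_of_le this with h | h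
        · exact Or.inl h
        · exact Or.inr h
      refine (proper_iff.mp (hD z (hs'D hz))) (Submodule.span_mono ?_ h1s)
      intro t ht
      by_cases htY : t ∈ Y
      · exact Or.inr (Or.inl htY)
      · have h2 : t ∈ s'.image F := by
          rw [hs's, Finset.mem_filter]
          exact ⟨ht, htY⟩
        obtain ⟨y, hy, rfl⟩ := Finset.mem_image.mp h2
        rcases hzmax y hy with h | h
        · exact Or.inr (Or.inr ⟨y, h, rfl⟩)
        · rw [h]
          exact Or.inl rfl
  -- the induction
  have hmain : ∀ x : G0, 1 - F x ∈ TwoSidedIdeal.span {(x : T)} ∧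
      Proper (insert (F x) (Y ∪ F '' {y | r y x})) := by
    intro x
    induction x using IsWellFounded.induction r with
    | ind x ih =>
      apply hF'
      have hproper : Proper (Y ∪ F '' {y | r y x}) := hfinite _ fun z hz => (ih z hz).2
      have hcard : #(Y ∪ F '' {y | r y x} : Set T) < θ := by
        refine mk_union_lt hθ.le hYc (mk_image_le.trans_lt (lt_of_lt_of_le ?_ hG0))
        have := card_typein_lt x hr
        rwa [Ordinal.card_typein] at this
      obtain ⟨A, hA, hAZ⟩ := hL (Wit hwit (Y ∪ F '' {y | r y x}) ∪ {(x : T)})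
        (mk_union_lt hθ.le (mk_wit_lt hwit hθ hcard) (by
          rw [mk_singleton]
          exact one_lt_aleph0.trans hθ)) (by
        rintro z (hz | hz)
        · exact ne_zero_of_mem_wit hwit hproper hz
        · rw [Set.mem_singleton_iff] at hz
          rw [hz]
          exact h0 x x.2)
      exact step (hA.of_subset hwit Set.subset_union_left fun e he => hAZ e (Or.inl he))
        (hAZ x (Or.inr rfl))
  refine ⟨Y ∪ F '' Set.univ, Set.subset_union_left, hfinite _ fun z _ => (hmain z).2, ?_, ?_⟩
  · intro g hg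
    exact ⟨F ⟨g, hg⟩, Or.inr ⟨_, trivial, rfl⟩, (hmain ⟨g, hg⟩).1⟩
  · refine (mk_union_le _ _).trans (add_le_add le_rfl (mk_image_le.trans ?_))
    exact mk_univ.le

end Pool.Agent.VRing6.Room
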